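import Pool.Agent.H68.Nl4

set_option autoImplicit false

namespace Pool.Agent.Results.MP_99d208_al.NotRadical

open Pool.Agent.H68.Nl Pool.Agent.H68.Sat

/-- There is a soluble, hereditary, saturated (= local) formation `F` of finite groups such that
every proper subgroup of every soluble minimal non-`F`-group `G` has nilpotent length less than
that of `G`, and yet `F` is not closed under products of normal `F`-subgroups. -/
theorem result :
    ∃ F : (G : Type) → [Group G] → Prop,
      -- a nonempty class of finite soluble groups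
      F Unit ∧
      (∀ (G : Type) [Group G], F G → Finite G ∧ Group.IsSolvable G) ∧
      -- a formation
      (∀ (G H : Type) [Group G] [Group H], (G ≃* H) → F G → F H) ∧
      (∀ (G : Type) [Group G] (N : Subgroup G) [N.Normal], F G → F (G ⧸ N)) ∧
      (∀ (G : Type) [Group G] [Finite G] (M N : Subgroup G) [M.Normal] [N.Normal],
        F (G ⧸ M) → F (G ⧸ N) → F (G ⧸ (M ⊓ N))) ∧
      -- hereditary
      (∀ (G : Type) [Group G] (H : Subgroup G), F G → F H) ∧
      -- saturated
      (∀ (G : Type) [Group G] [Finite G], F (G ⧸ frattini G) → F G) ∧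
      -- soluble minimal non-`F`-groups are minimal non-`𝔑^(l(G)-1)`-groups
      (∀ (G : Type) [Group G] [Finite G], Group.IsSolvable G → ¬ F G →
        (∀ H : Subgroup G, H ≠ ⊤ → F H) →
        ∀ H : Subgroup G, H ≠ ⊤ → nilLength H < nilLength G) ∧
      -- not radical
      ∃ (G : Type) (_ : Group G) (_ : Finite G) (M N : Subgroup G),
        M.Normal ∧ N.Normal ∧ F M ∧ F N ∧ ¬ F ↥(M ⊔ N) := by
  refine ⟨FF, ⟨inferInstance, inferInstance, fun h => bad_nl h (nl_le (by norm_num) nl_one)⟩,
    fun G _ h => ⟨h.1, h.2.1⟩, fun G H _ _ e h => h.surj e.toMonoidHom e.surjective,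
    fun G _ N _ h => h.surj _ (mk_surj N), fun G _ _ M N _ _ a b => ?_,
    fun G _ H h => h.inj _ H.subtype_injective, fun G _ _ h => h.st, fun G _ _ hs h hm H hH => ?_,
    G1, inferInstance, inferInstance, not_rad⟩
  · obtain ⟨α, h1⟩ := exists_lift _ (mk_surj (M ⊓ N)) (QuotientGroup.mk' M)
      fun g hg => mk_one.2 (mk_one.1 hg).1
    obtain ⟨β, h2⟩ := exists_lift _ (mk_surj (M ⊓ N)) (QuotientGroup.mk' N)
      fun g hg => mk_one.2 (mk_one.1 hg).2
    refine FF.pair α β (fun g x y => ?_) a b
    obtain ⟨g, rfl⟩ := mk_surj _ g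
    exact mk_one.2 ⟨mk_one.1 ((h1 g).symm.trans x), mk_one.1 ((h2 g).symm.trans y)⟩
  · have hb : Bad G := by_contra fun e => h ⟨inferInstance, hs, e⟩
    refine (Nat.sInf_le (s := {k | NL k H}) (m := 3)
      (min_nl hb (fun K hK => (hm K hK).2.2) H hH)).trans_lt (lt_of_not_ge fun e => ?_)
    exact bad_nl hb (nl_le e (Nat.sInf_mem (s := {k | NL k G}) nl_ex))

end Pool.Agent.Results.MP_99d208_al.NotRadical
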